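import Pool.Agent.H601R2.FormsWindow

set_option autoImplicit false

/-!
Primes `p` in `[N, 2^49 N]` for which `(p-1)/2^m + 1` is prime for some `1 ≤ m ≤ 48`, for every
large `N`.
-/

open Filter Finset

namespace Pool.Agent.Results.MP_39a890_nt.IteratesAllScales

open Pool.Agent.H601R2.FormsWindow Pool.Agent.H95R2.BG.LF

theorem adm : AdmissibleL (fun i : Fin 49 => 2 ^ (i : ℕ)) (fun _ => 1) := by
  refine ⟨fun i => Nat.one_le_two_pow, fun i j hij h => hij ?_, fun p hp => ⟨0, fun i hd => ?_⟩⟩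
  · have h1 : 2 ^ (i : ℕ) = 2 ^ (j : ℕ) := by simpa using h
    exact Fin.ext (Nat.pow_right_injective le_rfl h1)
  · have h1 : p ∣ 1 := by simpa using hd
    exact hp.one_lt.ne' (Nat.dvd_one.mp h1)

/-- For every `ε > 0` and all large `N` there are at least `N ^ (1 - ε)` primes `p` with
`N ≤ p ≤ 2 ^ 49 * N` such that for some `m` with `1 ≤ m ≤ 48` the number `2 ^ m` divides `p - 1` and
`(p - 1) / 2 ^ m + 1` is prime. -/
theorem result (ε : ℝ) (hε : 0 < ε) : ∃ N₀ : ℕ, ∀ N : ℕ, N₀ ≤ N →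
    (N : ℝ) ^ (1 - ε) ≤ ({p : ℕ | N ≤ p ∧ p ≤ 2 ^ 49 * N ∧ p.Prime ∧ ∃ m : ℕ, 1 ≤ m ∧ m ≤ 48 ∧
      2 ^ m ∣ p - 1 ∧ ((p - 1) / 2 ^ m + 1).Prime}.ncard : ℝ) := by
  classical
  have h1 := dhl49W (fun i : Fin 49 => 2 ^ (i : ℕ)) (fun _ => 1) adm (ε / 2) (by positivity)
  have h2 : Tendsto (fun N : ℕ => (N : ℝ)) atTop atTop := tendsto_natCast_atTop_atTop
  have h2' : Tendsto (fun N : ℕ => (N : ℝ) / 2) atTop atTop := h2.atTop_div_const (by norm_num)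
  have h3 : ∀ᶠ N : ℕ in atTop, (96 : ℝ) ≤ (N : ℝ) ^ (ε / 2) :=
    h2.eventually ((tendsto_rpow_atTop (by positivity)).eventually_ge_atTop 96)
  obtain ⟨N₀, hN₀⟩ := eventually_atTop.1 ((h2'.eventually h1).and (h3.and (eventually_ge_atTop 1)))
  refine ⟨N₀, fun N hN => ?_⟩
  obtain ⟨hg, h96, hN1⟩ := hN₀ N hN
  have hNpos : (0 : ℝ) < N := by exact_mod_cast hN1
  obtain ⟨Z, hZ⟩ : ∃ Z : Set ℕ, Z = {p : ℕ | N ≤ p ∧ p ≤ 2 ^ 49 * N ∧ p.Prime ∧ ∃ m : ℕ, 1 ≤ m ∧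
      m ≤ 48 ∧ 2 ^ m ∣ p - 1 ∧ ((p - 1) / 2 ^ m + 1).Prime} := ⟨_, rfl⟩
  rw [← hZ]
  have hfin : Z.Finite := (Set.finite_Iic (2 ^ 49 * N)).subset fun p hp => by
    rw [hZ] at hp
    exact hp.2.1
  -- every good `n` gives an element `2 ^ j n + 1` of `Z`, `1 ≤ j ≤ 48`
  have hmap : ∀ n ∈ goodW (fun i : Fin 49 => 2 ^ (i : ℕ)) (fun _ => 1) ((N : ℝ) / 2),
      ∃ j : ℕ, 1 ≤ j ∧ j ≤ 48 ∧ 2 ^ j * n + 1 ∈ Z := by
    intro n hn
    unfold goodW at hn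
    rw [Finset.mem_filter, Finset.mem_Icc] at hn
    obtain ⟨⟨hn1, hn3⟩, hnN, i, j, hij, hi, hj⟩ := hn
    have hnN' : N ≤ 2 * n := by
      have h4 : (N : ℝ) ≤ 2 * n := by linarith
      exact_mod_cast h4
    have hn3' : 2 * n ≤ 3 * N := by
      have h4 : (n : ℝ) ≤ 3 * ((N : ℝ) / 2) := (Nat.le_floor_iff (by positivity)).1 hn3
      have h5 : 2 * (n : ℝ) ≤ 3 * N := by linarith
      exact_mod_cast h5
    -- the smaller and the larger index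
    have key : ∀ i j : Fin 49, (i : ℕ) < j → (2 ^ (i : ℕ) * n + 1).Prime →
        (2 ^ (j : ℕ) * n + 1).Prime → ∃ j : ℕ, 1 ≤ j ∧ j ≤ 48 ∧ 2 ^ j * n + 1 ∈ Z := by
      intro i j hlt hi hj
      have hj48 : (j : ℕ) ≤ 48 := by omega
      have hj1 : 1 ≤ (j : ℕ) := by omega
      refine ⟨j, hj1, hj48, ?_⟩
      rw [hZ]
      refine ⟨?_, ?_, hj, (j : ℕ) - i, by omega, by omega, ?_, ?_⟩
      · have h5 : 2 ^ 1 ≤ 2 ^ (j : ℕ) := Nat.pow_le_pow_right (by norm_num) hj1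
        have h6 : 2 ^ 1 * n ≤ 2 ^ (j : ℕ) * n := Nat.mul_le_mul_right n h5
        omega
      · have h5 : 2 ^ (j : ℕ) ≤ 2 ^ 48 := Nat.pow_le_pow_right (by norm_num) hj48
        have h6 : 2 ^ (j : ℕ) * n ≤ 2 ^ 48 * n := Nat.mul_le_mul_right n h5
        have h7 : 2 ^ 48 * n = 2 ^ 47 * (2 * n) := by ring
        have h8 : 2 ^ 47 * (2 * n) ≤ 2 ^ 47 * (3 * N) := Nat.mul_le_mul_left _ hn3'
        have h9 : 2 ^ 49 * N = 2 ^ 47 * (3 * N) + 2 ^ 47 * N := by ring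
        have h10 : 1 ≤ 2 ^ 47 * N := Nat.one_le_iff_ne_zero.2 (by positivity)
        omega
      · have h5 : 2 ^ (j : ℕ) * n + 1 - 1 = 2 ^ ((j : ℕ) - i) * (2 ^ (i : ℕ) * n) := by
          rw [Nat.add_sub_cancel, ← mul_assoc, ← pow_add]
          congr 2
          omega
        rw [h5]
        exact dvd_mul_right _ _
      · have h5 : 2 ^ (j : ℕ) * n + 1 - 1 = 2 ^ ((j : ℕ) - i) * (2 ^ (i : ℕ) * n) := by
          rw [Nat.add_sub_cancel, ← mul_assoc, ← pow_add]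
          congr 2
          omega
        rw [h5, Nat.mul_div_cancel_left _ (by positivity)]
        exact hi
    have hne : (i : ℕ) ≠ j := fun h => hij (Fin.ext h)
    rcases lt_or_gt_of_ne hne with h | h
    · exact key i j h hi hj
    · exact key j i h hj hi
  -- counting
  have hcov : goodW (fun i : Fin 49 => 2 ^ (i : ℕ)) (fun _ => 1) ((N : ℝ) / 2) ⊆
      (Icc 1 48).biUnion (fun j => (goodW (fun i : Fin 49 => 2 ^ (i : ℕ)) (fun _ => 1)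
        ((N : ℝ) / 2)).filter (fun n => 2 ^ j * n + 1 ∈ Z)) := by
    intro n hn
    obtain ⟨j, hj1, hj2, hj⟩ := hmap n hn
    rw [mem_biUnion]
    exact ⟨j, mem_Icc.2 ⟨hj1, hj2⟩, mem_filter.2 ⟨hn, hj⟩⟩
  have hone : ∀ j ∈ Icc 1 48, ((goodW (fun i : Fin 49 => 2 ^ (i : ℕ)) (fun _ => 1)
      ((N : ℝ) / 2)).filter (fun n => 2 ^ j * n + 1 ∈ Z)).card ≤ hfin.toFinset.card := by
    intro j _
    apply Finset.card_le_card_of_injOn (fun n => 2 ^ j * n + 1)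
    · intro n hn
      rw [Finset.mem_coe, Finset.mem_filter] at hn
      rw [Finset.mem_coe, Set.Finite.mem_toFinset]
      exact hn.2
    · intro n _ n' _ h
      have h5 : 2 ^ j * n = 2 ^ j * n' := Nat.add_right_cancel h
      exact Nat.eq_of_mul_eq_mul_left (by positivity) h5
  have hcount : (goodW (fun i : Fin 49 => 2 ^ (i : ℕ)) (fun _ => 1) ((N : ℝ) / 2)).card ≤
      48 * Z.ncard := by
    rw [Set.ncard_eq_toFinset_card Z hfin]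
    calc _ ≤ _ := card_le_card hcov
      _ ≤ ∑ j ∈ Icc 1 48, _ := card_biUnion_le
      _ ≤ ∑ _j ∈ Icc 1 48, hfin.toFinset.card := sum_le_sum hone
      _ = 48 * hfin.toFinset.card := by simp
  have hcount' : ((goodW (fun i : Fin 49 => 2 ^ (i : ℕ)) (fun _ => 1) ((N : ℝ) / 2)).card : ℝ) ≤
      48 * (Z.ncard : ℝ) := by exact_mod_cast hcount
  have h5 : ((N : ℝ) / 2) ^ (1 - ε / 2) = (N : ℝ) ^ (1 - ε / 2) / 2 ^ (1 - ε / 2) :=
    Real.div_rpow hNpos.le (by norm_num) _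
  have h6 : (2 : ℝ) ^ (1 - ε / 2) ≤ 2 := by
    calc (2 : ℝ) ^ (1 - ε / 2) ≤ 2 ^ (1 : ℝ) :=
          Real.rpow_le_rpow_of_exponent_le (by norm_num) (by linarith)
      _ = 2 := Real.rpow_one 2
  have h7 : 0 < (2 : ℝ) ^ (1 - ε / 2) := by positivity
  have h8 : (N : ℝ) ^ (1 - ε / 2) / 2 ≤ (N : ℝ) ^ (1 - ε / 2) / 2 ^ (1 - ε / 2) :=
    div_le_div_of_nonneg_left (by positivity) h7 h6
  have h9 : (N : ℝ) ^ (1 - ε / 2) = (N : ℝ) ^ (1 - ε) * (N : ℝ) ^ (ε / 2) := by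
    rw [← Real.rpow_add hNpos]; congr 1; ring
  have h10 : 0 < (N : ℝ) ^ (1 - ε) := by positivity
  have h11 : (N : ℝ) ^ (1 - ε) * 96 ≤ (N : ℝ) ^ (1 - ε) * (N : ℝ) ^ (ε / 2) :=
    mul_le_mul_of_nonneg_left h96 h10.le
  rw [h5] at hg
  linarith

end Pool.Agent.Results.MP_39a890_nt.IteratesAllScales
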